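import Pool.Agent.H61.PO.CI

/-!
# Pohl's problem Q2 (MP_beb0a3_gt), helper10: adjacency of extreme points of a convex set
-/

namespace Pool.Agent.H10.PQ

open Set Pool.Agent.H61.PO

variable {E : Type*} [NormedAddCommGroup E] [NormedSpace ℝ E]

/-- two different extreme points of `K` are adjacent if the segment between them is a face -/
def AdjV (K : Set E) (x y : E) : Prop :=
  x ∈ K.extremePoints ℝ ∧ y ∈ K.extremePoints ℝ ∧ x ≠ y ∧ IsFace K (segment ℝ x y)

/-- the set of the neighbours of `x` -/
def nbs (K : Set E) (x : E) : Set E := {y | AdjV K x y}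

variable {K : Set E} {x y : E}

theorem AdjV.symm (h : AdjV K x y) : AdjV K y x := by
  obtain ⟨h1, h2, h3, h4⟩ := h
  refine ⟨h2, h1, h3.symm, ?_⟩
  rwa [segment_symm]

theorem AdjV.ne (h : AdjV K x y) : x ≠ y := h.2.2.1

theorem dimc_segment (h : x ≠ y) : dimc (segment ℝ x y) = 1 := by
  unfold dimc
  rw [← convexHull_pair, ← direction_affineSpan, affineSpan_convexHull, direction_affineSpan,
    vectorSpan_pair]
  exact finrank_span_singleton (vsub_ne_zero.2 h)

theorem AdjV.dim (h : AdjV K x y) : dimc (segment ℝ x y) = 1 := dimc_segment h.ne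

end Pool.Agent.H10.PQ
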