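import Pool.Agent.H94.PQ.Main

/-!
# Pohl's problem Q2 (MP_beb0a3_gt), helper10: interface to parts V, W (helper94)
-/

namespace Pool.Agent.H10.PQ

open Set Filter Topology Metric Pool.Agent.H61.PO

variable {M : Type*} [MetricSpace M] [CompactSpace M] [ConnectedSpace M] (hM : Surf M) (Γ : Gr M)
  {W : Set M}

include hM

theorem comp_open (hW : W ∈ Γ.comps) : IsOpen W := Pool.Agent.H94.PQ.comp_open hM Γ hW

theorem comp_clos (hW : W ∈ Γ.comps) : closure W ∩ Γ.set = ⋃ i ∈ Γ.adj W, Γ.σ i :=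
  Pool.Agent.H94.PQ.comp_clos hM Γ hW

theorem comp_three (hW : W ∈ Γ.comps) : 3 ≤ (Γ.adj W).ncard :=
  Pool.Agent.H94.PQ.comp_three hM Γ hW

/-- a component which is adjacent to exactly three edges: they form a triangle -/
theorem comp_tri (hW : W ∈ Γ.comps) (h3 : (Γ.adj W).ncard = 3) :
    ∃ (a b c : Γ.κ) (i j k : Γ.ι), a ≠ b ∧ a ≠ c ∧ b ≠ c ∧ Γ.adj W = {i, j, k} ∧
      ({Γ.s i, Γ.t i} : Set Γ.κ) = {a, b} ∧ ({Γ.s j, Γ.t j} : Set Γ.κ) = {b, c} ∧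
      ({Γ.s k, Γ.t k} : Set Γ.κ) = {a, c} := Pool.Agent.H94.PQ.comp_tri hM Γ hW h3

theorem comps_finite : Γ.comps.Finite := Pool.Agent.H94.PQ.comps_finite hM Γ

theorem comps_count : 3 * Γ.comps.ncard ≤ 2 * Nat.card Γ.ι :=
  Pool.Agent.H94.PQ.comps_count hM Γ

theorem comps_eq (h : 3 * Γ.comps.ncard = 2 * Nat.card Γ.ι) :
    (∀ W ∈ Γ.comps, (Γ.adj W).ncard = 3) ∧ ∀ i, {W | W ∈ Γ.comps ∧ Γ.Adj W i}.ncard = 2 :=
  Pool.Agent.H94.PQ.comps_eq hM Γ h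

/-- Euler inequality -/
theorem euler {e : ℂ → M} (he : IsOpenEmbedding e) :
    Nat.card Γ.ι + 2 ≤ Nat.card Γ.κ + h1 ((e '' ball 0 1)ᶜ) + Γ.comps.ncard :=
  Pool.Agent.H94.PQ.euler hM Γ he

end Pool.Agent.H10.PQ
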