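import Pool.Agent.H10.PQ.Adj
import Pool.Agent.H20.PX.F

/-!
# Pohl's problem Q2 (MP_beb0a3_gt), helper10: interface to parts X, Z2, Z3 (helper20)
-/

namespace Pool.Agent.H10.PQ

open Set Filter Topology Metric Pool.Agent.H61.PO

variable {E : Type*} [NormedAddCommGroup E] [NormedSpace ℝ E] [FiniteDimensional ℝ E] {K : Set E}

/-- the two notions of neighbours agree -/
theorem nbs_eq (K : Set E) (x : E) : nbs K x = Pool.Agent.H20.PX.nb K x := by
  ext y
  constructor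
  · rintro ⟨_, _, h3, h4⟩
    exact ⟨h3.symm, h4⟩
  · intro h
    have h' := Pool.Agent.H20.PX.nb_ext h
    exact ⟨h'.1, h'.2, h.1.symm, h.2⟩

theorem adjV_iff {x y : E} : AdjV K x y ↔ y ∈ Pool.Agent.H20.PX.nb K x := by
  rw [← nbs_eq]
  exact Iff.rfl

theorem body_of (hK : Convex ℝ K) (hKk : IsCompact K) (hfull : affineSpan ℝ K = ⊤) :
    Pool.Agent.H40.PC.Body K := by
  refine ⟨hK, hKk, ?_⟩
  rw [nonempty_iff_ne_empty]
  rintro rfl
  rw [AffineSubspace.span_empty] at hfull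
  exact AffineSubspace.bot_ne_top ℝ E E hfull

theorem dimc_full (hfull : affineSpan ℝ K = ⊤) : dimc K = Module.finrank ℝ E := by
  unfold dimc
  rw [← direction_affineSpan, hfull, AffineSubspace.direction_top, finrank_top]

/-- X1 -/
theorem x1 (hK : Convex ℝ K) (hKk : IsCompact K) (hfin : (K.extremePoints ℝ).Finite)
    (hfull : affineSpan ℝ K = ⊤) : Module.finrank ℝ E + 1 ≤ (K.extremePoints ℝ).ncard := by
  rw [← dimc_full hfull]
  exact Pool.Agent.H20.PX.ext_ge (body_of hK hKk hfull) hfin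

/-- X2 -/
theorem x2 (hK : Convex ℝ K) (hKk : IsCompact K) (hfin : (K.extremePoints ℝ).Finite)
    (hfull : affineSpan ℝ K = ⊤) {x : E} (hx : x ∈ K.extremePoints ℝ) :
    Module.finrank ℝ E ≤ (nbs K x).ncard := by
  rw [← dimc_full hfull, nbs_eq]
  exact Pool.Agent.H20.PX.deg_ge (body_of hK hKk hfull) hfin hx

/-- Z3 -/
theorem z3 (hK : Convex ℝ K) (hKk : IsCompact K) (hfin : (K.extremePoints ℝ).Finite)
    (hfull : affineSpan ℝ K = ⊤)
    (hdeg : ∀ x ∈ K.extremePoints ℝ, (nbs K x).ncard = Module.finrank ℝ E) {v a₁ a₂ a₃ : E}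
    (h1 : AdjV K v a₁) (h2 : AdjV K v a₂) (h3 : AdjV K v a₃) (h21 : AdjV K a₂ a₁)
    (h23 : AdjV K a₂ a₃) (hne : a₁ ≠ a₃) : AdjV K a₁ a₃ := by
  rw [adjV_iff] at h1 h2 h3 h21 h23 ⊢
  refine Pool.Agent.H20.PX.tetra (body_of hK hKk hfull) hfin ?_ h1 h2 h3 h21 h23 hne
  intro x hx
  rw [dimc_full hfull, ← nbs_eq]
  exact hdeg x hx

end Pool.Agent.H10.PQ
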