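import Pool.Agent.H10.PQ.Graph
import Pool.Agent.H10.PQ.IfV
import Pool.Agent.H10.PQ.IfX

/-!
# Pohl's problem Q2 (MP_beb0a3_gt), helper10, parts Y, Z1: counting
-/

namespace Pool.Agent.H10.PQ

open Set Filter Topology Metric Pool.Agent.H61.PO

/-- arithmetic of the inequality -/
theorem arith {d V E F b : ℕ} (hd : 6 ≤ d) (hV : d + 1 ≤ V) (hdV : d * V ≤ 2 * E)
    (hF : 3 * F ≤ 2 * E) (he : E + 2 ≤ V + b + F) : Nat.choose (d - 2) 2 ≤ 3 * b ∧
      (Nat.choose (d - 2) 2 = 3 * b → 3 * F = 2 * E ∧ d * V = 2 * E) := by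
  obtain ⟨k, rfl⟩ : ∃ k, d = k + 6 := ⟨d - 6, by omega⟩
  have hc : 2 * Nat.choose (k + 6 - 2) 2 = (k + 4) * (k + 3) := by
    rw [Nat.choose_two_right, show k + 6 - 2 = k + 4 by omega, show k + 4 - 1 = k + 3 by omega]
    exact Nat.mul_div_cancel' (Nat.even_mul_pred_self (k + 4)).two_dvd
  have hk : k * (k + 7) ≤ k * V := Nat.mul_le_mul_left k (by omega)
  have h1 : (k + 6) * V = k * V + 6 * V := by ring
  have h2 : (k + 4) * (k + 3) = k * (k + 7) + 12 := by ring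
  constructor
  · omega
  · intro h
    constructor
    · omega
    · omega

section
variable {M : Type*} [TopologicalSpace M] (Γ : Gr M)

/-- the edges at a vertex -/
def star (k : Γ.κ) : Set Γ.ι := {i | k = Γ.s i ∨ k = Γ.t i}

theorem handshake [Fintype Γ.κ] : ∑ k, (star Γ k).ncard = 2 * Nat.card Γ.ι := by
  classical
  have := Γ.fι
  have h1 : ∀ k, (star Γ k).ncard =
      ∑ i : Γ.ι, ((if k = Γ.s i then 1 else 0) + if k = Γ.t i then 1 else 0) := by
    intro k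
    have h2 : star Γ k = ((Finset.univ.filter fun i => k = Γ.s i ∨ k = Γ.t i : Finset Γ.ι) : Set Γ.ι) := by
      ext i
      simp [star]
    rw [h2, Set.ncard_coe_finset, Finset.card_filter]
    apply Finset.sum_congr rfl
    intro i _
    have h3 := Γ.st i
    by_cases hs : k = Γ.s i
    · have ht : k ≠ Γ.t i := fun h => h3 (hs.symm.trans h)
      simp [hs, h3]
    · by_cases ht : k = Γ.t i
      · simp [ht, h3.symm]
      · simp [hs, ht]
  simp_rw [h1]
  rw [Finset.sum_comm]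
  simp only [Finset.sum_add_distrib, Finset.sum_ite_eq', Finset.mem_univ, if_true]
  simp
  ring

end

variable {M : Type*} [MetricSpace M] [CompactSpace M] [Nonempty M]
  {E : Type*} [NormedAddCommGroup E] [NormedSpace ℝ E] [FiniteDimensional ℝ E] {f : M → E}
  {Γ : Gr M}

theorem IsGr.inj (h : IsGr f Γ) : Function.Injective fun k => f (Γ.pt k) := by
  intro k l hkl
  exact Γ.pt_inj (h.uniq l _ hkl)

theorem IsGr.card (h : IsGr f Γ) : Nat.card Γ.κ = ((hul f).extremePoints ℝ).ncard := by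
  rw [← Nat.card_coe_set_eq]
  refine Nat.card_congr (Equiv.ofBijective
    (fun k => (⟨f (Γ.pt k), h.ext k⟩ : (hul f).extremePoints ℝ)) ⟨?_, ?_⟩)
  · intro k l hkl
    exact h.inj (congrArg Subtype.val hkl)
  · rintro ⟨x, hx⟩
    obtain ⟨k, hk⟩ := h.surj x hx
    exact ⟨k, Subtype.ext hk⟩

/-- the other end of an edge -/
theorem star_other (k : Γ.κ) {i : Γ.ι} (hi : i ∈ star Γ k) :
    ∃ l, l ≠ k ∧ ({Γ.s i, Γ.t i} : Set Γ.κ) = {k, l} := by
  rcases hi with hi | hi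
  · exact ⟨Γ.t i, by rw [hi]; exact (Γ.st i).symm, by rw [hi]⟩
  · exact ⟨Γ.s i, by rw [hi]; exact Γ.st i, by rw [hi, pair_comm]⟩

theorem IsGr.adj_of (h : IsGr f Γ) {i : Γ.ι} {k l : Γ.κ}
    (hi : ({Γ.s i, Γ.t i} : Set Γ.κ) = {k, l}) : AdjV (hul f) (f (Γ.pt k)) (f (Γ.pt l)) := by
  have h1 := h.edge i
  have hk : k ∈ ({Γ.s i, Γ.t i} : Set Γ.κ) := by rw [hi]; exact Or.inl rfl
  have hl : l ∈ ({Γ.s i, Γ.t i} : Set Γ.κ) := by rw [hi]; exact Or.inr rfl
  have hs : Γ.s i ∈ ({k, l} : Set Γ.κ) := by rw [← hi]; exact Or.inl rfl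
  have ht : Γ.t i ∈ ({k, l} : Set Γ.κ) := by rw [← hi]; exact Or.inr rfl
  have hst := Γ.st i
  rcases hs with hs | hs <;> rcases ht with ht | ht
  · exact absurd (hs.trans ht.symm) hst
  · rw [← show Γ.s i = k from hs, ← show Γ.t i = l from ht]
    exact h1
  · rw [← show Γ.s i = l from hs, ← show Γ.t i = k from ht]
    exact h1.symm
  · exact absurd ((show Γ.s i = l from hs).trans (show Γ.t i = l from ht).symm) hst

theorem IsGr.deg (h : IsGr f Γ) (k : Γ.κ) :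
    (star Γ k).ncard = (nbs (hul f) (f (Γ.pt k))).ncard := by
  classical
  rw [← Nat.card_coe_set_eq, ← Nat.card_coe_set_eq]
  choose l hl1 hl2 using fun i : star Γ k => star_other k i.2
  refine Nat.card_congr (Equiv.ofBijective
    (fun i => (⟨f (Γ.pt (l i)), h.adj_of (hl2 i)⟩ : nbs (hul f) (f (Γ.pt k)))) ⟨?_, ?_⟩)
  · intro i j hij
    have h1 : l i = l j := h.inj (congrArg Subtype.val hij)
    apply Subtype.ext
    apply Γ.simple
    rw [hl2 i, hl2 j, h1]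
  · rintro ⟨y, hy⟩
    obtain ⟨m, rfl⟩ := h.surj y hy.2.1
    obtain ⟨i, hi⟩ := h.esurj k m hy
    have hki : i ∈ star Γ k := by
      have : k ∈ ({Γ.s i, Γ.t i} : Set Γ.κ) := by rw [hi]; exact Or.inl rfl
      exact this
    refine ⟨⟨i, hki⟩, ?_⟩
    apply Subtype.ext
    show f (Γ.pt (l ⟨i, hki⟩)) = f (Γ.pt m)
    have h1 := hl2 ⟨i, hki⟩
    have h2 : ({k, l ⟨i, hki⟩} : Set Γ.κ) = {k, m} := by rw [← h1, ← hi]
    have h3 : l ⟨i, hki⟩ ∈ ({k, m} : Set Γ.κ) := by rw [← h2]; exact Or.inr rfl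
    rcases h3 with h3 | h3
    · exact absurd h3 (hl1 _)
    · rw [show l ⟨i, hki⟩ = m from h3]

/-- `d V ≤ 2 E`, with equality only if all degrees are `d` -/
theorem IsGr.degrees (h : IsGr f Γ) {d : ℕ}
    (hd : ∀ x ∈ (hul f).extremePoints ℝ, d ≤ (nbs (hul f) x).ncard) :
    d * Nat.card Γ.κ ≤ 2 * Nat.card Γ.ι ∧ (d * Nat.card Γ.κ = 2 * Nat.card Γ.ι →
      ∀ x ∈ (hul f).extremePoints ℝ, (nbs (hul f) x).ncard = d) := by
  classical
  have := Γ.fκ
  have h1 := handshake Γ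
  have h2 : ∑ _k : Γ.κ, d = d * Nat.card Γ.κ := by
    rw [Finset.sum_const, smul_eq_mul, Finset.card_univ, Nat.card_eq_fintype_card, mul_comm]
  have h3 : ∀ k ∈ (Finset.univ : Finset Γ.κ), d ≤ (star Γ k).ncard := fun k _ => by
    rw [h.deg k]
    exact hd _ (h.ext k)
  constructor
  · rw [← h1, ← h2]
    exact Finset.sum_le_sum h3
  · intro he x hx
    obtain ⟨k, rfl⟩ := h.surj x hx
    rw [← h1, ← h2] at he
    have := (Finset.sum_eq_sum_iff_of_le h3).1 he k (Finset.mem_univ k)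
    rw [← h.deg k, ← this]

/-- hypotheses of part Z -/
structure Eq (f : M → E) (Γ : Gr M) : Prop where
  gr : IsGr f Γ
  tri : ∀ W ∈ Γ.comps, (Γ.adj W).ncard = 3
  two : ∀ i, {W | W ∈ Γ.comps ∧ Γ.Adj W i}.ncard = 2
  deg : ∀ x ∈ (hul f).extremePoints ℝ, (nbs (hul f) x).ncard = Module.finrank ℝ E

end Pool.Agent.H10.PQ
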