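import Pool.Agent.H10.PQ.Simp
import Pool.Agent.H20.PX.H
import Pool.Agent.H61.PO.PE2

/-!
# Pohl's problem Q2 (MP_beb0a3_gt), helper10, part Z6: in the case of equality `f` is a subcomplex of a simplex
-/

namespace Pool.Agent.H10.PQ

open Set Filter Topology Metric Pool.Agent.H61.PO Pool.Agent.H10.PO

variable {M : Type*} [MetricSpace M] [CompactSpace M] [ConnectedSpace M]
  {E : Type*} [NormedAddCommGroup E] [NormedSpace ℝ E] [FiniteDimensional ℝ E] {f : M → E}
  {Γ : Gr M}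

theorem hul_span (hfull : affineSpan ℝ (range f) = ⊤) : affineSpan ℝ (hul f) = ⊤ := by
  unfold hul
  rw [affineSpan_convexHull, hfull]

theorem uniq_range {v : E} (hv : v ∈ uniq f) : v ∈ range f := by
  obtain ⟨a, ha⟩ := hv
  have : a ∈ f ⁻¹' {v} := by rw [ha]; rfl
  exact ⟨a, this⟩

variable (hM : Surf M) (hf : Tight f) (hfin : ((hul f).extremePoints ℝ).Finite)
  (hfull : affineSpan ℝ (range f) = ⊤) (hd : 6 ≤ Module.finrank ℝ E) (hΓ : Eq f Γ)

include hM hf hfin hfull hΓ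

theorem ext_card : ((hul f).extremePoints ℝ).ncard = Module.finrank ℝ E + 1 := by
  have hfull' := hul_span hfull
  have hne : ((hul f).extremePoints ℝ).Nonempty := by
    have h1 := x1 hul_convex (hul_compact hf) hfin hfull'
    rw [nonempty_iff_ne_empty]
    intro h
    rw [h, ncard_empty] at h1
    omega
  obtain ⟨v, hv⟩ := hne
  have h1 : nbs (hul f) v = (hul f).extremePoints ℝ \ {v} := by
    ext w
    constructor
    · intro h
      exact ⟨h.2.1, fun hh => h.ne (show w = v from hh).symm⟩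
    · rintro ⟨h, h2⟩
      exact all_adj hM hf hfin hfull' hΓ hv h (fun hh => h2 hh.symm)
  have h2 := hΓ.deg v hv
  rw [h1] at h2
  have h3 := ncard_sdiff_singleton_add_one hv hfin
  omega

theorem ext_aff : AffineIndependent ℝ (fun a : extremePoints ℝ (hul f) => (a : E)) := by
  have hfull' := hul_span hfull
  refine Pool.Agent.H20.PX.simplex_aff (body_of hul_convex (hul_compact hf) hfull') hfin ?_
  rw [dimc_full hfull']
  exact ext_card hM hf hfin hfull hΓ

include hd

theorem tri_face {W : Set M} (hW : W ∈ Γ.comps) : ∃ a b c : Γ.κ, a ≠ b ∧ a ≠ c ∧ b ≠ c ∧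
    convexHull ℝ {f (Γ.pt a), f (Γ.pt b), f (Γ.pt c)} ⊆ uniq f ∧
    W ⊆ f ⁻¹' convexHull ℝ {f (Γ.pt a), f (Γ.pt b), f (Γ.pt c)} ∧
    ∀ i, Γ.Adj W i → Γ.σ i ⊆ f ⁻¹' convexHull ℝ {f (Γ.pt a), f (Γ.pt b), f (Γ.pt c)} := by
  classical
  have hfull' := hul_span hfull
  have hbody := body_of hul_convex (hul_compact hf) hfull'
  obtain ⟨a, b, c, i, j, k, hab, hac, hbc, hadj, e1, e2, e3⟩ := comp_tri hM Γ hW (hΓ.tri W hW)
  refine ⟨a, b, c, hab, hac, hbc, ?_⟩
  set S : Set E := {f (Γ.pt a), f (Γ.pt b), f (Γ.pt c)} with hS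
  set Δ := convexHull ℝ S with hΔ
  have hSext : S ⊆ (hul f).extremePoints ℝ := by
    rintro _ (rfl | rfl | rfl)
    · exact hΓ.gr.ext a
    · exact hΓ.gr.ext b
    · exact hΓ.gr.ext c
  have hSn : S.Nonempty := ⟨_, Or.inl rfl⟩
  have hScard : S.ncard = 3 := by
    apply Set.ncard_eq_three.2
    refine ⟨_, _, _, ?_, ?_, ?_, rfl⟩
    · exact fun h => hab (hΓ.gr.inj h)
    · exact fun h => hac (hΓ.gr.inj h)
    · exact fun h => hbc (hΓ.gr.inj h)
  have haff := ext_aff hM hf hfin hfull hΓ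
  obtain ⟨hface, hext⟩ := Pool.Agent.H20.PX.simplex_face hbody hfin haff hSext hSn
  have hdim : dimc Δ = 2 := by
    have h1 : dimc Δ + 1 = S.ncard := Pool.Agent.H20.PX.simplex_face_dim hfin haff hSext hSn
    rw [hScard] at h1
    omega
  have hTwo : Two f Δ := ⟨hface, hdim⟩
  have hSΔ : S ⊆ Δ := subset_convexHull ℝ S
  have hextΔ : ∀ x ∈ (hul f).extremePoints ℝ, x ∈ Δ → x ∈ S := by
    intro x hx hxΔ
    rw [← hext, hface.ext_eq]
    exact ⟨hxΔ, hx⟩
  -- the three edges
  have hedge : ∀ (l : Γ.ι) (m n : Γ.κ), ({Γ.s l, Γ.t l} : Set Γ.κ) = {m, n} →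
      Γ.σ l = f ⁻¹' segment ℝ (f (Γ.pt m)) (f (Γ.pt n)) := by
    intro l m n h
    rw [hΓ.gr.sig l]
    rcases Set.pair_eq_pair_iff.1 h with ⟨h1, h2⟩ | ⟨h1, h2⟩
    · rw [h1, h2]
    · rw [h1, h2, segment_symm]
  have hadj3 : ∀ l, Γ.Adj W l ↔ l = i ∨ l = j ∨ l = k := by
    intro l
    have : l ∈ Γ.adj W ↔ l ∈ ({i, j, k} : Set Γ.ι) := by rw [hadj]
    exact this
  have hclos : closure W ∩ Γ.set = Γ.σ i ∪ (Γ.σ j ∪ Γ.σ k) := by
    rw [comp_clos hM Γ hW]
    ext y
    simp only [mem_iUnion, exists_prop, mem_union]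
    constructor
    · rintro ⟨l, hl, hy⟩
      rcases (hadj3 l).1 hl with rfl | rfl | rfl
      · exact Or.inl hy
      · exact Or.inr (Or.inl hy)
      · exact Or.inr (Or.inr hy)
    · rintro (hy | hy | hy)
      · exact ⟨i, (hadj3 i).2 (Or.inl rfl), hy⟩
      · exact ⟨j, (hadj3 j).2 (Or.inr (Or.inl rfl)), hy⟩
      · exact ⟨k, (hadj3 k).2 (Or.inr (Or.inr rfl)), hy⟩
  have hma : f (Γ.pt a) ∈ S := Or.inl rfl
  have hmb : f (Γ.pt b) ∈ S := Or.inr (Or.inl rfl)
  have hmc : f (Γ.pt c) ∈ S := Or.inr (Or.inr rfl)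
  -- segments are in the boundary
  have hsegrb : ∀ m n : Γ.κ, AdjV (hul f) (f (Γ.pt m)) (f (Γ.pt n)) → f (Γ.pt m) ∈ S →
      f (Γ.pt n) ∈ S → segment ℝ (f (Γ.pt m)) (f (Γ.pt n)) ⊆ rb Δ := by
    intro m n h hm hn y hy
    have hsub : segment ℝ (f (Γ.pt m)) (f (Γ.pt n)) ⊆ Δ :=
      (convex_convexHull ℝ S).segment_subset (hSΔ hm) (hSΔ hn)
    refine (rb_iff hface.2.1 hface.2.2.1).2 ⟨hsub hy, ?_⟩
    intro hmf
    have h1 : mf Δ y ⊆ segment ℝ (f (Γ.pt m)) (f (Γ.pt n)) :=
      mf_min (IsFace.of_subset hface h.2.2.2 hsub) hy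
    rw [hmf] at h1
    have h2 := dimc_mono h1
    rw [hdim, h.dim] at h2
    omega
  have hcv : cv f Δ = Γ.σ i ∪ (Γ.σ j ∪ Γ.σ k) := by
    rw [hedge i a b e1, hedge j b c e2, hedge k a c e3]
    have hpt : ∀ x, f x ∈ Δ → f x ∈ (hul f).extremePoints ℝ → f x = f (Γ.pt a) ∨
        f x = f (Γ.pt b) ∨ f x = f (Γ.pt c) := fun x h1 h2 => hextΔ _ h2 h1
    ext y
    constructor
    · intro hy
      have hyr : f y ∈ rb Δ := hy
      have hyΔ : f y ∈ Δ := cv_sub hTwo hy
      rcases rb_cases hface hdim hyr with h | ⟨e, he, heΔ, hye⟩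
      · rcases hpt y hyΔ h with h1 | h1 | h1
        · left
          show f y ∈ segment ℝ _ _
          rw [h1]
          exact left_mem_segment ℝ _ _
        · left
          show f y ∈ segment ℝ _ _
          rw [h1]
          exact right_mem_segment ℝ _ _
        · right
          left
          show f y ∈ segment ℝ _ _
          rw [h1]
          exact right_mem_segment ℝ _ _
      · obtain ⟨u, w, hu, hw, huw, hseg, -⟩ := edge_ends' he
        have hu' : u ∈ S := hextΔ u hu (heΔ (by rw [hseg]; exact left_mem_segment ℝ _ _))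
        have hw' : w ∈ S := hextΔ w hw (heΔ (by rw [hseg]; exact right_mem_segment ℝ _ _))
        rw [hseg] at hye
        have hye' : f y ∈ segment ℝ w u := by rwa [segment_symm]
        rcases hu' with rfl | rfl | hu' <;> rcases hw' with rfl | rfl | hw'
        · exact absurd rfl huw
        · exact Or.inl hye
        · rw [show w = _ from hw'] at hye
          exact Or.inr (Or.inr hye)
        · exact Or.inl hye'
        · exact absurd rfl huw
        · rw [show w = _ from hw'] at hye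
          exact Or.inr (Or.inl hye)
        · rw [show u = _ from hu'] at hye'
          exact Or.inr (Or.inr hye')
        · rw [show u = _ from hu'] at hye'
          exact Or.inr (Or.inl hye')
        · exact absurd ((show u = _ from hu').trans (show w = _ from hw').symm) huw
    · rintro (hy | hy | hy)
      · exact hsegrb a b (hΓ.gr.adj_of e1) hma hmb hy
      · exact hsegrb b c (hΓ.gr.adj_of e2) hmb hmc hy
      · exact hsegrb a c (hΓ.gr.adj_of e3) hma hmc hy
  have hWo := comp_open hM Γ hW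
  have hWn := (isComp_of_mem Γ hW).nonempty
  have hWΓ := (isComp_of_mem Γ hW).sub
  have hcvΓ : cv f Δ ⊆ Γ.set := by
    rw [hcv, ← hclos]
    exact inter_subset_right
  have hWcl : closure W ⊆ W ∪ cv f Δ := by
    intro y hy
    by_cases hyΓ : y ∈ Γ.set
    · right
      rw [hcv, ← hclos]
      exact ⟨hy, hyΓ⟩
    · left
      exact (isComp_of_mem Γ hW).closure_inter ⟨hy, hyΓ⟩
  -- another vertex
  obtain ⟨m, hm⟩ : ∃ m : Γ.κ, f (Γ.pt m) ∉ S := by
    by_contra hcon
    push Not at hcon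
    have h1 : (hul f).extremePoints ℝ ⊆ S := by
      intro x hx
      obtain ⟨m, rfl⟩ := hΓ.gr.surj x hx
      exact hcon m
    have h2 := ncard_le_ncard h1 (Set.toFinite S)
    rw [hScard, ext_card hM hf hfin hfull hΓ] at h2
    omega
  have hmΔ : f (Γ.pt m) ∉ Δ := fun h => hm (hextΔ _ (hΓ.gr.ext m) h)
  have hmW : Γ.pt m ∉ W := by
    intro h
    obtain ⟨l, hl⟩ := Γ.deg m
    exact hWΓ h (mem_iUnion.2 ⟨l, pt_mem_of_star Γ hl⟩)
  have hmc' : Γ.pt m ∉ cv f Δ := fun h => hmΔ (cv_sub hTwo h)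
  have hess : ¬ Ess f Δ := by
    rintro ⟨-, hpre⟩
    have h1 : (cv f Δ)ᶜ ⊆ W := by
      apply hpre.subset_of_closure_inter_subset hWo
      · obtain ⟨w, hw⟩ := hWn
        exact ⟨w, fun h => hWΓ hw (hcvΓ h), hw⟩
      · rintro y ⟨hy, hyc⟩
        rcases hWcl hy with h | h
        · exact h
        · exact absurd h hyc
    exact hmW (h1 hmc')
  have huniq : Δ ⊆ uniq f := filled hM hf hfull (by omega) hTwo hess
  have hcΔ : cv f Δ ⊆ f ⁻¹' Δ := fun y hy => cv_sub hTwo hy
  have hWsub : W ⊆ f ⁻¹' Δ := by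
    by_contra hcon
    obtain ⟨w, hwW, hw⟩ := not_subset.1 hcon
    have h1 : (f ⁻¹' Δ)ᶜ ⊆ W := by
      apply (good_face hf hface).compl.subset_of_closure_inter_subset hWo ⟨w, hw, hwW⟩
      rintro y ⟨hy, hyc⟩
      rcases hWcl hy with h | h
      · exact h
      · exact absurd (hcΔ h) hyc
    exact hmW (h1 hmΔ)
  refine ⟨huniq, hWsub, ?_⟩
  intro l hl
  refine Subset.trans ?_ hcΔ
  rw [hcv]
  rcases (hadj3 l).1 hl with rfl | rfl | rfl
  · exact subset_union_left
  · exact subset_union_left.trans subset_union_right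
  · exact subset_union_right.trans subset_union_right

/-- **Z**: equality implies that `f` is a subcomplex of a simplex -/
theorem isSub : IsSub f := by
  classical
  have hcard := ext_card hM hf hfin hfull hΓ
  have haff := ext_aff hM hf hfin hfull hΓ
  have hft := hfin.fintype
  have hall : ∀ y, ∃ a b c : Γ.κ, a ≠ b ∧ a ≠ c ∧ b ≠ c ∧
      convexHull ℝ {f (Γ.pt a), f (Γ.pt b), f (Γ.pt c)} ⊆ uniq f ∧
      f y ∈ convexHull ℝ {f (Γ.pt a), f (Γ.pt b), f (Γ.pt c)} := by
    intro y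
    by_cases hyΓ : y ∈ Γ.set
    · obtain ⟨i, hi⟩ := mem_iUnion.1 hyΓ
      have h2 := hΓ.two i
      have hne : {W | W ∈ Γ.comps ∧ Γ.Adj W i}.Nonempty := by
        rw [nonempty_iff_ne_empty]
        intro h
        rw [h, ncard_empty] at h2
        omega
      obtain ⟨W, hW, hWi⟩ := hne
      obtain ⟨a, b, c, hab, hac, hbc, h3, -, h5⟩ := tri_face hM hf hfin hfull hd hΓ hW
      exact ⟨a, b, c, hab, hac, hbc, h3, h5 i hWi hi⟩
    · have hW := comps_of_notMem Γ hyΓ
      obtain ⟨a, b, c, hab, hac, hbc, h3, h4, -⟩ := tri_face hM hf hfin hfull hd hΓ hW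
      exact ⟨a, b, c, hab, hac, hbc, h3, h4 (mem_connectedComponentIn (F := (Γ.set)ᶜ) hyΓ)⟩
  refine ⟨?_, ?_⟩
  · intro x y hxy
    obtain ⟨a, b, c, -, -, -, h3, h4⟩ := hall x
    exact uniq_eq (h3 h4) hxy
  · have hc : Fintype.card (extremePoints ℝ (hul f)) = Module.finrank ℝ E + 1 := by
      rw [← hcard, ← Nat.card_coe_set_eq, Nat.card_eq_fintype_card]
    let v : Fin (Module.finrank ℝ E + 1) ≃ extremePoints ℝ (hul f) :=
      (finCongr hc.symm).trans (Fintype.equivFin (extremePoints ℝ (hul f))).symm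
    let p : Fin (Module.finrank ℝ E + 1) → E := fun n => (v n : E)
    have hp : AffineIndependent ℝ p := haff.comp_embedding v.toEmbedding
    refine ⟨p, {t | t.card = 3 ∧ convexHull ℝ (p '' (t : Set (Fin _))) ⊆ range f}, hp,
      fun t ht => ht.1, ?_⟩
    apply Subset.antisymm
    · rintro _ ⟨y, rfl⟩
      obtain ⟨a, b, c, hab, hac, hbc, h3, h4⟩ := hall y
      let q : Γ.κ → Fin (Module.finrank ℝ E + 1) := fun m => v.symm ⟨f (Γ.pt m), hΓ.gr.ext m⟩
      have hq : ∀ m, p (q m) = f (Γ.pt m) := fun m => by simp [p, q]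
      have hqi : ∀ m n, q m = q n → m = n := by
        intro m n h
        apply hΓ.gr.inj
        show f (Γ.pt m) = f (Γ.pt n)
        rw [← hq, ← hq, h]
      have himg : p '' (({q a, q b, q c} : Finset (Fin (Module.finrank ℝ E + 1))) : Set (Fin _)) =
          {f (Γ.pt a), f (Γ.pt b), f (Γ.pt c)} := by
        simp only [Finset.coe_insert, Finset.coe_singleton, image_insert_eq, image_singleton, hq]
      refine mem_iUnion₂.2 ⟨{q a, q b, q c}, ⟨?_, ?_⟩, ?_⟩
      · rw [Finset.card_eq_three]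
        exact ⟨q a, q b, q c, fun h => hab (hqi _ _ h), fun h => hac (hqi _ _ h),
          fun h => hbc (hqi _ _ h), rfl⟩
      · rw [himg]
        exact fun z hz => uniq_range (h3 hz)
      · rw [himg]
        exact h4
    · exact iUnion₂_subset fun t ht => ht.2

end Pool.Agent.H10.PQ
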