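import Pool.Agent.H10.PQ.Adj
import Pool.Agent.H10.PO.Inst
import Pool.Agent.H61.PQ.Defs

/-!
# Pohl's problem Q2 (MP_beb0a3_gt), helper10, part Y: the 1-skeleton of the hull as a graph in `M`
-/

namespace Pool.Agent.H10.PQ

open Set Filter Topology Pool.Agent.H61.PO

section
variable {E : Type*} [NormedAddCommGroup E] [NormedSpace ℝ E]

theorem arc_segment {x y : E} (hxy : x ≠ y) : IsArc (segment ℝ x y) x y := by
  refine ⟨fun t => (1 - t) • x + t • y, ?_, ?_, segment_eq_image ℝ x y, by simp, by simp⟩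
  · exact Continuous.continuousOn (by fun_prop)
  · intro s _ t _ hst
    have h1 : (1 - s) • x + s • y = (1 - t) • x + t • y := hst
    have h2 : (s - t) • (y - x) = 0 := by
      have e : (s - t) • (y - x) = ((1 - s) • x + s • y) - ((1 - t) • x + t • y) := by
        simp only [sub_smul, smul_sub, one_smul]
        abel
      rw [e, h1, sub_self]
    rcases smul_eq_zero.1 h2 with h3 | h3
    · linarith
    · exact absurd (sub_eq_zero.1 h3).symm hxy

/-- extreme points in an edge are the ends -/
theorem AdjV.ext_mem [FiniteDimensional ℝ E] {K : Set E} {x y z : E} (h : AdjV K x y) (hz : z ∈ K.extremePoints ℝ)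
    (hzs : z ∈ segment ℝ x y) : z = x ∨ z = y :=
  Pool.Agent.H10.PO.ext_seg hz h.1.1 h.2.1.1 hzs

end

variable {M : Type*} [MetricSpace M] [CompactSpace M] [Nonempty M]
  {E : Type*} [NormedAddCommGroup E] [NormedSpace ℝ E] [FiniteDimensional ℝ E] {f : M → E}

/-- `Γ` is the preimage of the 1-skeleton of the hull of `f` -/
structure IsGr (f : M → E) (Γ : Gr M) : Prop where
  ext : ∀ k, f (Γ.pt k) ∈ (hul f).extremePoints ℝ
  surj : ∀ x ∈ (hul f).extremePoints ℝ, ∃ k, f (Γ.pt k) = x
  edge : ∀ i, AdjV (hul f) (f (Γ.pt (Γ.s i))) (f (Γ.pt (Γ.t i)))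
  sig : ∀ i, Γ.σ i = f ⁻¹' segment ℝ (f (Γ.pt (Γ.s i))) (f (Γ.pt (Γ.t i)))
  esurj : ∀ k l, AdjV (hul f) (f (Γ.pt k)) (f (Γ.pt l)) →
    ∃ i, ({Γ.s i, Γ.t i} : Set Γ.κ) = {k, l}
  uniq : ∀ k a, f a = f (Γ.pt k) → a = Γ.pt k

theorem exists_gr (hf : Tight f) (hfin : ((hul f).extremePoints ℝ).Finite)
    (hdeg : ∀ x ∈ (hul f).extremePoints ℝ, 4 ≤ (nbs (hul f) x).ncard) : ∃ Γ : Gr M, IsGr f Γ := by
  classical
  set K := hul f with hK
  have hfin' := hfin.fintype
  obtain ⟨n, ⟨v⟩⟩ := Finite.exists_equiv_fin (K.extremePoints ℝ)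
  let p : Fin n → E := fun k => (v.symm k : E)
  have hp : ∀ k, p k ∈ K.extremePoints ℝ := fun k => (v.symm k).2
  have hpi : Function.Injective p := fun a b h => v.symm.injective (Subtype.ext h)
  have hps : ∀ x ∈ K.extremePoints ℝ, ∃ k, p k = x := fun x hx =>
    ⟨v ⟨x, hx⟩, by simp [p]⟩
  have hu : ∀ k, p k ∈ uniq f := fun k => ext_uniq hf (hp k)
  have hfs : ∀ k, f (sec f (p k)) = p k := fun k => sec_spec (hu k)
  let ι : Type := {q : Fin n × Fin n // q.1 < q.2 ∧ AdjV K (p q.1) (p q.2)}
  let σ : ι → Set M := fun i => f ⁻¹' segment ℝ (p i.1.1) (p i.1.2)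
  have hseg : ∀ i : ι, segment ℝ (p i.1.1) (p i.1.2) ⊆ uniq f := fun i =>
    edge_uniq hf i.2.2.2.2.2 i.2.2.dim
  have hsimple : ∀ i j : ι, ({i.1.1, i.1.2} : Set (Fin n)) = {j.1.1, j.1.2} → i = j := by
    intro i j h
    have h1 : i.1.1 = j.1.1 ∨ i.1.1 = j.1.2 := by
      have : i.1.1 ∈ ({j.1.1, j.1.2} : Set (Fin n)) := by rw [← h]; exact Or.inl rfl
      exact this
    have h2 : i.1.2 = j.1.1 ∨ i.1.2 = j.1.2 := by
      have : i.1.2 ∈ ({j.1.1, j.1.2} : Set (Fin n)) := by rw [← h]; exact Or.inr rfl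
      exact this
    have hi := i.2.1
    have hj := j.2.1
    apply Subtype.ext
    apply Prod.ext
    · rcases h1 with h1 | h1 <;> rcases h2 with h2 | h2
      · exact h1
      · exact h1
      · rw [h1, h2] at hi
        exact absurd hi (lt_asymm hj)
      · rw [h1, h2] at hi
        exact absurd hi (lt_irrefl _)
    · rcases h1 with h1 | h1 <;> rcases h2 with h2 | h2
      · rw [h1, h2] at hi
        exact absurd hi (lt_irrefl _)
      · exact h2
      · rw [h1, h2] at hi
        exact absurd hi (lt_asymm hj)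
      · exact h2
  have hesurj : ∀ k l, AdjV K (p k) (p l) → ∃ i : ι, ({i.1.1, i.1.2} : Set (Fin n)) = {k, l} := by
    intro k l h
    rcases lt_trichotomy k l with hkl | hkl | hkl
    · exact ⟨⟨(k, l), hkl, h⟩, rfl⟩
    · rw [hkl] at h
      exact absurd rfl h.ne
    · exact ⟨⟨(l, k), hkl, h.symm⟩, pair_comm _ _⟩
  have hnbs : ∀ k, ∀ y ∈ nbs K (p k), ∃ (l : Fin n) (i : ι), p l = y ∧
      ({i.1.1, i.1.2} : Set (Fin n)) = {k, l} := by
    intro k y hy
    obtain ⟨l, rfl⟩ := hps y hy.2.1
    obtain ⟨i, hi⟩ := hesurj k l hy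
    exact ⟨l, i, rfl, hi⟩
  have hfour : 4 ≤ Nat.card ι := by
    obtain ⟨a⟩ := (inferInstance : Nonempty M)
    have hne : (K.extremePoints ℝ).Nonempty := by
      by_contra h
      rw [not_nonempty_iff_eq_empty] at h
      have h1 := minkowski (K := K) hul_convex (hul_compact hf)
      rw [h, convexHull_empty] at h1
      have h2 : f a ∈ K := mem_hul a
      rw [← h1] at h2
      exact h2
    obtain ⟨x, hx⟩ := hne
    obtain ⟨k, rfl⟩ := hps x hx
    refine (hdeg _ hx).trans ?_
    choose l i hl hi using hnbs k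
    let j : nbs K (p k) → ι := fun y => i y y.2
    have hinj : Function.Injective j := by
      rintro ⟨y, hy⟩ ⟨y', hy'⟩ hyy
      have hyy' : i y hy = i y' hy' := hyy
      have h1 := hi y hy
      have h2 := hi y' hy'
      rw [hyy', h2] at h1
      have h3 : l y hy ∈ ({k, l y' hy'} : Set (Fin n)) := by rw [h1]; exact Or.inr rfl
      have h4 : l y hy ≠ k := by
        intro h
        have h5 := hl y hy
        rw [h] at h5
        exact hy.ne h5
      rcases h3 with h3 | h3
      · exact absurd h3 h4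
      · apply Subtype.ext
        show y = y'
        rw [← hl y hy, ← hl y' hy', show l y hy = l y' hy' from h3]
    rw [← Nat.card_coe_set_eq]
    exact Nat.card_le_card_of_injective j hinj
  let Γ : Gr M :=
    { κ := Fin n
      ι := ι
      fκ := inferInstance
      fι := Fintype.ofFinite _
      pt := fun k => sec f (p k)
      pt_inj := fun a b h => hpi (sec_injOn (hu a) (hu b) h)
      s := fun i => i.1.1
      t := fun i => i.1.2
      st := fun i => ne_of_lt i.2.1
      σ := σ
      arc := fun i => arc_preimage hf.cont (hseg i) (arc_segment i.2.2.ne)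
      vert := by
        intro i k hk
        have h1 : f (sec f (p k)) ∈ segment ℝ (p i.1.1) (p i.1.2) := hk
        rw [hfs] at h1
        rcases i.2.2.ext_mem (hp k) h1 with h2 | h2
        · exact Or.inl (hpi h2)
        · exact Or.inr (hpi h2)
      disj := by
        rintro i j hij a ⟨ha1, ha2⟩
        have h1 : f a ∈ segment ℝ (p i.1.1) (p i.1.2) := ha1
        have h2 : f a ∈ segment ℝ (p j.1.1) (p j.1.2) := ha2
        rcases Pool.Agent.H10.PO.edge_face' hul_convex (hul_compact hf)
          ⟨i.2.2.2.2.2, i.2.2.dim⟩ j.2.2.2.2.2 h1 h2 with h3 | h3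
        · obtain ⟨k, hk⟩ := hps _ h3
          refine ⟨k, ?_⟩
          show sec f (p k) = a
          rw [hk]
          apply sec_f
          exact ext_uniq hf h3
        · exfalso
          apply hij
          apply hsimple
          have h4 : i.1.1 = j.1.1 ∨ i.1.1 = j.1.2 := by
            rcases j.2.2.ext_mem (hp _) (h3 (left_mem_segment ℝ _ _)) with h | h
            · exact Or.inl (hpi h)
            · exact Or.inr (hpi h)
          have h5 : i.1.2 = j.1.1 ∨ i.1.2 = j.1.2 := by
            rcases j.2.2.ext_mem (hp _) (h3 (right_mem_segment ℝ _ _)) with h | h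
            · exact Or.inl (hpi h)
            · exact Or.inr (hpi h)
          have hi := i.2.1
          have hj := j.2.1
          rcases h4 with h4 | h4 <;> rcases h5 with h5 | h5
          · rw [h4, h5] at hi
            exact absurd hi (lt_irrefl _)
          · rw [h4, h5]
          · rw [h4, h5, pair_comm]
          · rw [h4, h5] at hi
            exact absurd hi (lt_irrefl _)
      simple := hsimple
      deg := by
        intro k
        have h1 : (nbs K (p k)).Nonempty := by
          by_contra h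
          rw [not_nonempty_iff_eq_empty] at h
          have := hdeg _ (hp k)
          rw [h, ncard_empty] at this
          omega
        obtain ⟨y, hy⟩ := h1
        obtain ⟨l, i, -, hi⟩ := hnbs k y hy
        refine ⟨i, ?_⟩
        have h2 : k ∈ ({i.1.1, i.1.2} : Set (Fin n)) := by rw [hi]; exact Or.inl rfl
        exact h2
      four := hfour }
  refine ⟨Γ, ?_, ?_, ?_, ?_, ?_, ?_⟩
  · intro k
    show f (sec f (p k)) ∈ _
    rw [hfs]
    exact hp k
  · intro x hx
    obtain ⟨k, hk⟩ := hps x hx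
    refine ⟨k, ?_⟩
    show f (sec f (p k)) = x
    rw [hfs, hk]
  · intro i
    show AdjV K (f (sec f (p i.1.1))) (f (sec f (p i.1.2)))
    rw [hfs, hfs]
    exact i.2.2
  · intro i
    show f ⁻¹' segment ℝ (p i.1.1) (p i.1.2) =
      f ⁻¹' segment ℝ (f (sec f (p i.1.1))) (f (sec f (p i.1.2)))
    rw [hfs, hfs]
  · intro k l h
    change AdjV K (f (sec f (p k))) (f (sec f (p l))) at h
    rw [hfs, hfs] at h
    exact hesurj k l h
  · intro k a h
    change f a = f (sec f (p k)) at h
    show a = sec f (p k)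
    apply uniq_eq (f := f) _ h
    rw [h, hfs]
    exact hu k

end Pool.Agent.H10.PQ
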