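import Pool.Agent.H10.PQ.Fil

/-!
# Pohl's problem Q2 (MP_beb0a3_gt), helper10: the inequality, and equality implies a subcomplex of a simplex
-/

namespace Pool.Agent.H10.PQ

open Set Filter Topology Metric Pool.Agent.H61.PO Pool.Agent.H10.PO

variable {M : Type*} [MetricSpace M] [CompactSpace M] [ConnectedSpace M]
  {E : Type*} [NormedAddCommGroup E] [NormedSpace ℝ E] [FiniteDimensional ℝ E] {f : M → E}
  (hM : Surf M) (hf : Tight f) (hfin : ((hul f).extremePoints ℝ).Finite)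
  (hfull : affineSpan ℝ (range f) = ⊤) (hd : 6 ≤ Module.finrank ℝ E)

include hM hf hfin hfull hd

theorem q2_aux {e : ℂ → M} (he : IsOpenEmbedding e) :
    Nat.choose (Module.finrank ℝ E - 2) 2 ≤ 3 * h1 ((e '' ball 0 1)ᶜ) ∧
      (Nat.choose (Module.finrank ℝ E - 2) 2 = 3 * h1 ((e '' ball 0 1)ᶜ) →
        ∃ Γ : Gr M, Eq f Γ) := by
  have hfull' := hul_span hfull
  have hdeg : ∀ x ∈ (hul f).extremePoints ℝ, Module.finrank ℝ E ≤ (nbs (hul f) x).ncard :=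
    fun x hx => x2 hul_convex (hul_compact hf) hfin hfull' hx
  obtain ⟨Γ, hΓ⟩ := exists_gr hf hfin (fun x hx => (by omega : 4 ≤ Module.finrank ℝ E).trans
    (hdeg x hx))
  have hV : Module.finrank ℝ E + 1 ≤ Nat.card Γ.κ := by
    rw [hΓ.card]
    exact x1 hul_convex (hul_compact hf) hfin hfull'
  obtain ⟨g1, g2⟩ := hΓ.degrees hdeg
  obtain ⟨a1, a2⟩ := arith hd hV g1 (comps_count hM Γ) (euler hM Γ he)
  refine ⟨a1, fun h => ?_⟩
  obtain ⟨b1, b2⟩ := a2 h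
  obtain ⟨c1, c2⟩ := comps_eq hM Γ b1
  exact ⟨Γ, hΓ, c1, c2, g2 b2⟩

/-- the inequality -/
theorem q2_ineq {e : ℂ → M} (he : IsOpenEmbedding e) :
    Nat.choose (Module.finrank ℝ E - 2) 2 ≤ 3 * h1 ((e '' ball 0 1)ᶜ) :=
  (q2_aux hM hf hfin hfull hd he).1

/-- equality implies that `f` is a subcomplex of a simplex -/
theorem q2_eq {e : ℂ → M} (he : IsOpenEmbedding e)
    (h : Nat.choose (Module.finrank ℝ E - 2) 2 = 3 * h1 ((e '' ball 0 1)ᶜ)) : IsSub f := by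
  obtain ⟨Γ, hΓ⟩ := (q2_aux hM hf hfin hfull hd he).2 h
  exact isSub hM hf hfin hfull hd hΓ

end Pool.Agent.H10.PQ
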