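import Pool.Agent.H10.PQ.Star

/-!
# Pohl's problem Q2 (MP_beb0a3_gt), helper10, part Z5: in the case of equality all vertices are adjacent
-/

namespace Pool.Agent.H10.PQ

open Set Filter Topology Metric Pool.Agent.H61.PO Pool.Agent.H10.PO

/-- two edges `{v, a'}`, `{v, a''}` of a triangle: the third is `{a', a''}` -/
theorem pair_third {α : Type*} {a b c v x y : α} (hab : a ≠ b) (hac : a ≠ c) (hbc : b ≠ c)
    (hne : ({v, x} : Set α) ≠ {v, y})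
    (h1 : ({v, x} : Set α) = {a, b} ∨ ({v, x} : Set α) = {b, c} ∨ ({v, x} : Set α) = {a, c})
    (h2 : ({v, y} : Set α) = {a, b} ∨ ({v, y} : Set α) = {b, c} ∨ ({v, y} : Set α) = {a, c}) :
    ({x, y} : Set α) = {a, b} ∨ ({x, y} : Set α) = {b, c} ∨ ({x, y} : Set α) = {a, c} := by
  have hxy : x ≠ y := fun h => hne (by rw [h])
  simp only [Set.pair_eq_pair_iff] at h1 h2 ⊢
  rcases h1 with (⟨rfl, rfl⟩ | ⟨rfl, rfl⟩) | (⟨rfl, rfl⟩ | ⟨rfl, rfl⟩) | (⟨rfl, rfl⟩ | ⟨rfl, rfl⟩) <;>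
    rcases h2 with (⟨h3, h4⟩ | ⟨h3, h4⟩) | (⟨h3, h4⟩ | ⟨h3, h4⟩) | (⟨h3, h4⟩ | ⟨h3, h4⟩) <;>
    subst h4 <;> simp_all

variable {M : Type*} [MetricSpace M] [CompactSpace M] [ConnectedSpace M]
  {E : Type*} [NormedAddCommGroup E] [NormedSpace ℝ E] [FiniteDimensional ℝ E] {f : M → E}
  {Γ : Gr M}

theorem tri_third (hM : Surf M) (htri : ∀ W ∈ Γ.comps, (Γ.adj W).ncard = 3) {W : Set M}
    (hW : W ∈ Γ.comps) {i j : Γ.ι} (hij : i ≠ j) (hi : Γ.Adj W i) (hj : Γ.Adj W j) {v x y : Γ.κ}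
    (h1 : ({Γ.s i, Γ.t i} : Set Γ.κ) = {v, x}) (h2 : ({Γ.s j, Γ.t j} : Set Γ.κ) = {v, y}) :
    ∃ l, Γ.Adj W l ∧ ({Γ.s l, Γ.t l} : Set Γ.κ) = {x, y} := by
  obtain ⟨a, b, c, i0, j0, k0, hab, hac, hbc, hadj, e1, e2, e3⟩ := comp_tri hM Γ hW (htri W hW)
  have m1 : ∀ l, Γ.Adj W l → ({Γ.s l, Γ.t l} : Set Γ.κ) = {a, b} ∨
      ({Γ.s l, Γ.t l} : Set Γ.κ) = {b, c} ∨ ({Γ.s l, Γ.t l} : Set Γ.κ) = {a, c} := by
    intro l hl
    have h3 : l ∈ ({i0, j0, k0} : Set Γ.ι) := by rw [← hadj]; exact hl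
    rcases h3 with rfl | rfl | h3
    · exact Or.inl e1
    · exact Or.inr (Or.inl e2)
    · rw [show l = k0 from h3]
      exact Or.inr (Or.inr e3)
  have g1 := m1 i hi
  have g2 := m1 j hj
  rw [h1] at g1
  rw [h2] at g2
  have hne : ({v, x} : Set Γ.κ) ≠ {v, y} := by
    rw [← h1, ← h2]
    exact fun h => hij (Γ.simple i j h)
  have hmem : ∀ l, l ∈ ({i0, j0, k0} : Set Γ.ι) → Γ.Adj W l := fun l hl => by
    rw [← hadj] at hl
    exact hl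
  rcases pair_third hab hac hbc hne g1 g2 with h | h | h
  · exact ⟨i0, hmem _ (Or.inl rfl), by rw [e1, h]⟩
  · exact ⟨j0, hmem _ (Or.inr (Or.inl rfl)), by rw [e2, h]⟩
  · exact ⟨k0, hmem _ (Or.inr (Or.inr rfl)), by rw [e3, h]⟩

variable (hM : Surf M) (hf : Tight f) (hfin : ((hul f).extremePoints ℝ).Finite)
  (hfull : affineSpan ℝ (hul f) = ⊤) (hΓ : Eq f Γ)

include hM hf hfin hfull hΓ

/-- the neighbours of a vertex are pairwise adjacent -/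
theorem clique {v a a' : E} (ha : AdjV (hul f) v a) (ha' : AdjV (hul f) v a') (hne : a ≠ a') :
    AdjV (hul f) a a' := by
  classical
  by_contra hcon
  obtain ⟨k, rfl⟩ := hΓ.gr.surj v ha.1
  obtain ⟨m, rfl⟩ := hΓ.gr.surj a ha.2.1
  obtain ⟨m', rfl⟩ := hΓ.gr.surj a' ha'.2.1
  obtain ⟨i₀, hi₀⟩ := hΓ.gr.esurj k m ha
  obtain ⟨j₀, hj₀⟩ := hΓ.gr.esurj k m' ha'
  have hst : ∀ i l, ({Γ.s i, Γ.t i} : Set Γ.κ) = {k, l} → i ∈ star Γ k := by
    intro i l h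
    have : k ∈ ({Γ.s i, Γ.t i} : Set Γ.κ) := by rw [h]; exact Or.inl rfl
    exact this
  have huniq : ∀ (i : Γ.ι) (l l' : Γ.κ), ({Γ.s i, Γ.t i} : Set Γ.κ) = {k, l} →
      ({Γ.s i, Γ.t i} : Set Γ.κ) = {k, l'} → l = l' := by
    intro i l l' h h'
    have hkl : k ≠ l := by
      intro hh
      have := hΓ.gr.adj_of h
      rw [hh] at this
      exact this.ne rfl
    have h3 : l ∈ ({k, l'} : Set Γ.κ) := by rw [← h', h]; exact Or.inr rfl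
    rcases h3 with h3 | h3
    · exact absurd h3.symm hkl
    · exact h3
  let P : Γ.κ → Prop := fun l => l = m ∨ AdjV (hul f) (f (Γ.pt m)) (f (Γ.pt l))
  let A : Set Γ.ι := {i | ∃ l, ({Γ.s i, Γ.t i} : Set Γ.κ) = {k, l} ∧ P l}
  have hA : A ⊆ star Γ k := by
    rintro i ⟨l, h, -⟩
    exact hst i l h
  have hB : j₀ ∈ star Γ k \ A := by
    refine ⟨hst _ _ hj₀, ?_⟩
    rintro ⟨l, h, hl⟩
    have := huniq _ _ _ h hj₀
    subst this
    rcases hl with hl | hl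
    · exact hne (by rw [hl])
    · exact hcon hl
  obtain ⟨W, hW, i, ⟨l, hil, hl⟩, j, ⟨hj, hjA⟩, hWi, hWj⟩ := star_conn hM Γ k A (star Γ k \ A)
    (union_sdiff_cancel hA) ⟨i₀, m, hi₀, Or.inl rfl⟩ ⟨j₀, hB⟩ disjoint_sdiff_right
  obtain ⟨l', hl'k, hjl'⟩ := star_other (Γ := Γ) k hj
  have hij : i ≠ j := by
    rintro rfl
    exact hjA ⟨l, hil, hl⟩
  obtain ⟨e, -, he⟩ := tri_third hM hΓ.tri hW hij hWi hWj hil hjl'
  have hll' := hΓ.gr.adj_of he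
  apply hjA
  refine ⟨l', hjl', ?_⟩
  rcases hl with hl | hl
  · rw [hl] at hll'
    exact Or.inr hll'
  · by_cases hlm : l' = m
    · exact Or.inl hlm
    · right
      exact z3 hul_convex (hul_compact hf) hfin hfull hΓ.deg ha (hΓ.gr.adj_of hil)
        (hΓ.gr.adj_of hjl') hl.symm hll' (fun h => hlm (hΓ.gr.inj h.symm))

/-- the closed neighbourhood of a vertex is closed under adjacency -/
theorem nb_closed {v x y : E} (hv : v ∈ (hul f).extremePoints ℝ)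
    (hx : x = v ∨ AdjV (hul f) v x) (hxy : AdjV (hul f) x y) : y = v ∨ AdjV (hul f) v y := by
  rcases hx with rfl | hx
  · exact Or.inr hxy
  by_contra hcon
  push Not at hcon
  have hfn : ∀ z, (nbs (hul f) z).Finite := fun z => hfin.subset fun w hw => hw.2.1
  -- `insert v (nbs v \ {x}) ⊂ nbs x`
  have h1 : insert v (nbs (hul f) v \ {x}) ⊆ nbs (hul f) x \ {y} := by
    rintro z (rfl | ⟨hz, hzx⟩)
    · exact ⟨hx.symm, fun h => hcon.1 h.symm⟩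
    · refine ⟨clique hM hf hfin hfull hΓ hx hz (fun h => hzx h.symm), ?_⟩
      rintro rfl
      exact hcon.2 hz
  have h2 := ncard_le_ncard h1 ((hfn x).subset sdiff_subset)
  have h3 : v ∉ nbs (hul f) v \ {x} := fun h => h.1.ne rfl
  rw [ncard_insert_of_notMem h3 ((hfn v).subset sdiff_subset)] at h2
  have h4 := ncard_sdiff_singleton_add_one (show x ∈ nbs (hul f) v from hx) (hfn v)
  have h5 := ncard_sdiff_singleton_add_one (show y ∈ nbs (hul f) x from hxy) (hfn x)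
  have h6 := hΓ.deg v hv
  have h7 := hΓ.deg x hx.2.1
  omega

/-- all vertices are adjacent -/
theorem all_adj {v w : E} (hv : v ∈ (hul f).extremePoints ℝ) (hw : w ∈ (hul f).extremePoints ℝ)
    (hvw : v ≠ w) : AdjV (hul f) v w := by
  classical
  by_contra hcon
  have hκ := Γ.fκ
  have hι := Γ.fι
  have hcf := comps_finite hM Γ
  let S : Set Γ.κ := {k | f (Γ.pt k) = v ∨ AdjV (hul f) v (f (Γ.pt k))}
  have hS : ∀ k l i, ({Γ.s i, Γ.t i} : Set Γ.κ) = {k, l} → k ∈ S → l ∈ S := by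
    intro k l i hi hk
    exact nb_closed hM hf hfin hfull hΓ hv hk (hΓ.gr.adj_of hi)
  have hSst : ∀ i, Γ.s i ∈ S ↔ Γ.t i ∈ S := fun i =>
    ⟨hS _ _ i rfl, hS _ _ i (pair_comm _ _)⟩
  have hSend : ∀ k i, i ∈ star Γ k → (Γ.s i ∈ S ↔ k ∈ S) := by
    rintro k i (h | h)
    · rw [h]
    · rw [h]
      exact hSst i
  -- homogeneity
  have hhom : ∀ W ∈ Γ.comps, ∀ i j, Γ.Adj W i → Γ.Adj W j → (Γ.s i ∈ S ↔ Γ.s j ∈ S) := by
    intro W hW i j hi hj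
    obtain ⟨a, b, c, i0, j0, k0, hab, hac, hbc, hadj, e1, e2, e3⟩ :=
      comp_tri hM Γ hW (hΓ.tri W hW)
    have key : ∀ l, Γ.Adj W l → (Γ.s l ∈ S ↔ a ∈ S) := by
      intro l hl
      have h3 : l ∈ ({i0, j0, k0} : Set Γ.ι) := by rw [← hadj]; exact hl
      have hab' : a ∈ S ↔ b ∈ S := ⟨hS _ _ _ e1, hS _ _ i0 (by rw [e1, pair_comm])⟩
      rcases h3 with rfl | rfl | h3
      · apply hSend
        have : a ∈ ({Γ.s l, Γ.t l} : Set Γ.κ) := by rw [e1]; exact Or.inl rfl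
        exact this
      · rw [hab']
        apply hSend
        have : b ∈ ({Γ.s l, Γ.t l} : Set Γ.κ) := by rw [e2]; exact Or.inl rfl
        exact this
      · rw [show l = k0 from h3]
        apply hSend
        have : a ∈ ({Γ.s k0, Γ.t k0} : Set Γ.κ) := by rw [e3]; exact Or.inl rfl
        exact this
    rw [key i hi, key j hj]
  -- the two closed sets
  let D : Set Γ.κ → Set M := fun T => (⋃ i ∈ {i | Γ.s i ∈ T}, Γ.σ i) ∪
    ⋃ W ∈ {W | W ∈ Γ.comps ∧ ∃ i, Γ.Adj W i ∧ Γ.s i ∈ T}, closure W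
  have hD : ∀ T, IsClosed (D T) := by
    intro T
    refine IsClosed.union ?_ ?_
    · exact (Set.toFinite _).isClosed_biUnion fun i _ => sig_closed Γ i
    · exact (hcf.subset fun W hW => hW.1).isClosed_biUnion fun W _ => isClosed_closure
  have hcov : (univ : Set M) ⊆ D S ∪ D Sᶜ := by
    intro y _
    by_cases hyΓ : y ∈ Γ.set
    · obtain ⟨j, hj⟩ := mem_iUnion.1 hyΓ
      by_cases hs : Γ.s j ∈ S
      · exact Or.inl (Or.inl (mem_iUnion₂.2 ⟨j, hs, hj⟩))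
      · exact Or.inr (Or.inl (mem_iUnion₂.2 ⟨j, hs, hj⟩))
    · have hW := comps_of_notMem Γ hyΓ
      have hyW : y ∈ closure (connectedComponentIn (Γ.set)ᶜ y) :=
        subset_closure (mem_connectedComponentIn (F := (Γ.set)ᶜ) hyΓ)
      have h3 := comp_three hM Γ hW
      have hne : (Γ.adj (connectedComponentIn (Γ.set)ᶜ y)).Nonempty := by
        rw [nonempty_iff_ne_empty]
        intro h
        rw [h, ncard_empty] at h3
        omega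
      obtain ⟨j, hj⟩ := hne
      by_cases hs : Γ.s j ∈ S
      · exact Or.inl (Or.inr (mem_iUnion₂.2 ⟨_, ⟨hW, j, hj, hs⟩, hyW⟩))
      · exact Or.inr (Or.inr (mem_iUnion₂.2 ⟨_, ⟨hW, j, hj, hs⟩, hyW⟩))
  -- vertices
  obtain ⟨k, hk⟩ := hΓ.gr.surj v hv
  obtain ⟨m, hm⟩ := hΓ.gr.surj w hw
  have hkS : k ∈ S := Or.inl hk
  have hmS : m ∉ S := by
    rintro (h | h)
    · rw [hm] at h
      exact hvw h.symm
    · rw [hm] at h
      exact hcon h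
  obtain ⟨i, hi⟩ := Γ.deg k
  obtain ⟨j, hj⟩ := Γ.deg m
  have hne1 : (univ ∩ D S).Nonempty := by
    refine ⟨Γ.pt k, mem_univ _, Or.inl (mem_iUnion₂.2 ⟨i, ?_, pt_mem_of_star Γ hi⟩)⟩
    exact (hSend k i hi).2 hkS
  have hne2 : (univ ∩ D Sᶜ).Nonempty := by
    refine ⟨Γ.pt m, mem_univ _, Or.inl (mem_iUnion₂.2 ⟨j, ?_, pt_mem_of_star Γ hj⟩)⟩
    exact fun h => hmS ((hSend m j hj).1 h)
  obtain ⟨y, -, hy1, hy2⟩ := isPreconnected_closed_iff.1 (isPreconnected_univ (α := M)) (D S) (D Sᶜ)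
    (hD S) (hD Sᶜ) hcov hne1 hne2
  -- the contradiction
  have hg : ∀ T : Set Γ.κ, y ∈ D T → y ∈ Γ.set → ∃ i, y ∈ Γ.σ i ∧
      ∃ i', Γ.s i' ∈ T ∧ (i' = i ∨ ∃ W ∈ Γ.comps, Γ.Adj W i' ∧ Γ.Adj W i) := by
    intro T hy hyΓ
    rcases hy with h | h
    · obtain ⟨i, hi, hyi⟩ := mem_iUnion₂.1 h
      exact ⟨i, hyi, i, hi, Or.inl rfl⟩
    · obtain ⟨W, ⟨hW, i', hWi', hi'⟩, hyW⟩ := mem_iUnion₂.1 h
      obtain ⟨i, hWi, hyi⟩ := clos_adj hM Γ hW hyW hyΓ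
      exact ⟨i, hyi, i', hi', Or.inr ⟨W, hW, hWi', hWi⟩⟩
  by_cases hyΓ : y ∈ Γ.set
  · obtain ⟨i1, hyi1, i1', hi1', h1⟩ := hg S hy1 hyΓ
    obtain ⟨i2, hyi2, i2', hi2', h2⟩ := hg Sᶜ hy2 hyΓ
    have g1 : Γ.s i1 ∈ S := by
      rcases h1 with rfl | ⟨W, hW, ha, hb⟩
      · exact hi1'
      · exact (hhom W hW _ _ ha hb).1 hi1'
    have g2 : Γ.s i2 ∉ S := by
      rcases h2 with rfl | ⟨W, hW, ha, hb⟩
      · exact hi2'
      · exact fun h => hi2' ((hhom W hW _ _ ha hb).2 h)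
    by_cases h12 : i1 = i2
    · rw [h12] at g1
      exact g2 g1
    · obtain ⟨l, hl⟩ := Γ.disj i1 i2 h12 ⟨hyi1, hyi2⟩
      rw [← hl] at hyi1 hyi2
      have q1 := hSend l i1 (star_of_mem Γ hyi1)
      have q2 := hSend l i2 (star_of_mem Γ hyi2)
      exact g2 (q2.2 (q1.1 g1))
  · have hW0 : ∀ T : Set Γ.κ, y ∈ D T →
        ∃ i, Γ.Adj (connectedComponentIn (Γ.set)ᶜ y) i ∧ Γ.s i ∈ T := by
      intro T hy
      rcases hy with h | h
      · obtain ⟨i, hi, hyi⟩ := mem_iUnion₂.1 h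
        exact absurd (mem_iUnion.2 ⟨i, hyi⟩) hyΓ
      · obtain ⟨W, ⟨hW, i', hWi', hi'⟩, hyW⟩ := mem_iUnion₂.1 h
        have h1 : y ∈ W := (isComp_of_mem Γ hW).closure_inter ⟨hyW, hyΓ⟩
        rw [← (isComp_of_mem Γ hW).eq_of_mem h1]
        exact ⟨i', hWi', hi'⟩
    obtain ⟨i1, a1, b1⟩ := hW0 S hy1
    obtain ⟨i2, a2, b2⟩ := hW0 Sᶜ hy2
    exact b2 ((hhom _ (comps_of_notMem Γ hyΓ) _ _ a1 a2).1 b1)

end Pool.Agent.H10.PQ
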