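import Pool.Agent.H10.PQ.Count

/-!
# Pohl's problem Q2 (MP_beb0a3_gt), helper10, part Z4: the edges at a vertex are connected by the components
-/

namespace Pool.Agent.H10.PQ

open Set Filter Topology Metric Pool.Agent.H61.PO Pool.Agent.H10.PO

section
variable {M : Type*} [TopologicalSpace M] (Γ : Gr M)

theorem isComp_of_mem {W : Set M} (hW : W ∈ Γ.comps) : IsComp (Γ.set)ᶜ W := by
  obtain ⟨w, hw, rfl⟩ := hW
  exact ⟨w, hw, rfl⟩

theorem comps_of_notMem {y : M} (hy : y ∉ Γ.set) : connectedComponentIn (Γ.set)ᶜ y ∈ Γ.comps :=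
  ⟨y, hy, rfl⟩

theorem sig_closed [T2Space M] (i : Γ.ι) : IsClosed (Γ.σ i) := by
  obtain ⟨α, hc, -, h, -, -⟩ := Γ.arc i
  rw [h]
  exact (isCompact_Icc.image_of_continuousOn hc).isClosed

theorem sig_pre (i : Γ.ι) : IsPreconnected (Γ.σ i) := by
  obtain ⟨α, hc, -, h, -, -⟩ := Γ.arc i
  rw [h]
  exact isPreconnected_Icc.image _ hc

theorem pt_s_mem (i : Γ.ι) : Γ.pt (Γ.s i) ∈ Γ.σ i := by
  obtain ⟨α, hc, -, h, h0, -⟩ := Γ.arc i
  rw [h, ← h0]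
  exact mem_image_of_mem _ ⟨le_rfl, zero_le_one⟩

theorem pt_t_mem (i : Γ.ι) : Γ.pt (Γ.t i) ∈ Γ.σ i := by
  obtain ⟨α, hc, -, h, -, h1⟩ := Γ.arc i
  rw [h, ← h1]
  exact mem_image_of_mem _ ⟨zero_le_one, le_rfl⟩

theorem pt_mem_of_star {k : Γ.κ} {i : Γ.ι} (hi : i ∈ star Γ k) : Γ.pt k ∈ Γ.σ i := by
  rcases hi with h | h
  · rw [h]
    exact pt_s_mem Γ i
  · rw [h]
    exact pt_t_mem Γ i

theorem star_of_mem {k : Γ.κ} {i : Γ.ι} (hi : Γ.pt k ∈ Γ.σ i) : i ∈ star Γ k := Γ.vert i k hi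

end

variable {M : Type*} [MetricSpace M] [CompactSpace M] [ConnectedSpace M] (hM : Surf M) (Γ : Gr M)

include hM

/-- a point of the graph in the closure of `W` lies on an edge adjacent to `W` -/
theorem clos_adj {W : Set M} (hW : W ∈ Γ.comps) {y : M} (hy : y ∈ closure W) (hyΓ : y ∈ Γ.set) :
    ∃ i, Γ.Adj W i ∧ y ∈ Γ.σ i := by
  have h1 : y ∈ closure W ∩ Γ.set := ⟨hy, hyΓ⟩
  rw [comp_clos hM Γ hW] at h1
  obtain ⟨i, hi, hy⟩ := mem_iUnion₂.1 h1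
  exact ⟨i, hi, hy⟩

theorem star_conn (k : Γ.κ) (A B : Set Γ.ι) (hAB : A ∪ B = star Γ k) (hA : A.Nonempty)
    (hB : B.Nonempty) (hdis : Disjoint A B) :
    ∃ W ∈ Γ.comps, ∃ i ∈ A, ∃ j ∈ B, Γ.Adj W i ∧ Γ.Adj W j := by
  classical
  by_contra hcon
  push Not at hcon
  have hκ := Γ.fκ
  have hι := Γ.fι
  have hcf := comps_finite hM Γ
  -- the bad set
  let Bad : Set M := (⋃ i ∈ {i | i ∉ star Γ k}, Γ.σ i) ∪
    ((⋃ W ∈ {W | W ∈ Γ.comps ∧ Γ.pt k ∉ closure W}, closure W) ∪ ⋃ l ∈ {l | l ≠ k}, {Γ.pt l})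
  have hBadc : IsClosed Bad := by
    refine IsClosed.union ?_ (IsClosed.union ?_ ?_)
    · exact (Set.toFinite _).isClosed_biUnion fun i _ => sig_closed Γ i
    · exact (hcf.subset fun W hW => hW.1).isClosed_biUnion fun W _ => isClosed_closure
    · exact (Set.toFinite _).isClosed_biUnion fun l _ => isClosed_singleton
  have hkBad : Γ.pt k ∉ Bad := by
    rintro (h | h | h)
    · obtain ⟨i, hi, hki⟩ := mem_iUnion₂.1 h
      exact hi (star_of_mem Γ hki)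
    · obtain ⟨W, hW, hkW⟩ := mem_iUnion₂.1 h
      exact hW.2 hkW
    · obtain ⟨l, hl, hkl⟩ := mem_iUnion₂.1 h
      exact hl (Γ.pt_inj hkl).symm
  obtain ⟨e, he, he0, heB⟩ := hM (Γ.pt k) Badᶜ (hBadc.isOpen_compl.mem_nhds hkBad)
  have hO : IsOpen (range e) := he.isOpen_range
  have hkO : Γ.pt k ∈ range e := ⟨0, he0⟩
  have hOB : ∀ y ∈ range e, y ∉ Bad := fun y hy => heB hy
  -- consequences
  have o1 : ∀ y ∈ range e, ∀ i, y ∈ Γ.σ i → i ∈ star Γ k := by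
    intro y hy i hi
    by_contra h
    exact hOB y hy (Or.inl (mem_iUnion₂.2 ⟨i, h, hi⟩))
  have o2 : ∀ y ∈ range e, ∀ W ∈ Γ.comps, y ∈ closure W → Γ.pt k ∈ closure W := by
    intro y hy W hW hyW
    by_contra h
    exact hOB y hy (Or.inr (Or.inl (mem_iUnion₂.2 ⟨W, ⟨hW, h⟩, hyW⟩)))
  have o3 : ∀ y ∈ range e, y ≠ Γ.pt k → y ∉ range Γ.pt := by
    rintro y hy hyk ⟨l, rfl⟩
    have hlk : l ≠ k := fun h => hyk (by rw [h])
    exact hOB _ hy (Or.inr (Or.inr (mem_iUnion₂.2 ⟨l, hlk, rfl⟩)))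
  have o4 : ∀ y ∈ range e, y ≠ Γ.pt k → ∀ i j, y ∈ Γ.σ i → y ∈ Γ.σ j → i = j := by
    intro y hy hyk i j hi hj
    by_contra hij
    exact o3 y hy hyk (Γ.disj i j hij ⟨hi, hj⟩)
  -- the punctured disc
  have hpre : IsPreconnected (range e \ {Γ.pt k}) := by
    have h1 : range e \ {Γ.pt k} = e '' {0}ᶜ := by
      rw [← he0, ← image_univ, ← image_singleton, ← image_sdiff he.injective, compl_eq_univ_sdiff]
    rw [h1]
    refine IsPreconnected.image ?_ e he.continuous.continuousOn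
    apply (isConnected_compl_singleton_of_one_lt_rank (E := ℂ) ?_ 0).isPreconnected
    rw [Complex.rank_real_complex]
    norm_num
  -- the two closed sets
  let C : Set Γ.ι → Set M := fun S => (⋃ i ∈ S, Γ.σ i) ∪
    ⋃ W ∈ {W | W ∈ Γ.comps ∧ ∃ i ∈ S, Γ.Adj W i}, closure W
  have hC : ∀ S, IsClosed (C S) := by
    intro S
    refine IsClosed.union ?_ ?_
    · exact (Set.toFinite _).isClosed_biUnion fun i _ => sig_closed Γ i
    · exact (hcf.subset fun W hW => hW.1).isClosed_biUnion fun W _ => isClosed_closure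
  have hcov : range e \ {Γ.pt k} ⊆ C A ∪ C B := by
    rintro y ⟨hy, hyk⟩
    by_cases hyΓ : y ∈ Γ.set
    · obtain ⟨j, hj⟩ := mem_iUnion.1 hyΓ
      have h1 := o1 y hy j hj
      rw [← hAB] at h1
      rcases h1 with h1 | h1
      · exact Or.inl (Or.inl (mem_iUnion₂.2 ⟨j, h1, hj⟩))
      · exact Or.inr (Or.inl (mem_iUnion₂.2 ⟨j, h1, hj⟩))
    · have hW := comps_of_notMem Γ hyΓ
      have hyW : y ∈ closure (connectedComponentIn (Γ.set)ᶜ y) :=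
        subset_closure (mem_connectedComponentIn (F := (Γ.set)ᶜ) hyΓ)
      have h1 := o2 y hy _ hW hyW
      have hkΓ : Γ.pt k ∈ Γ.set := by
        obtain ⟨i, hi⟩ := hA
        have : i ∈ star Γ k := by rw [← hAB]; exact Or.inl hi
        exact mem_iUnion.2 ⟨i, pt_mem_of_star Γ this⟩
      obtain ⟨i, hi, hki⟩ := clos_adj hM Γ hW h1 hkΓ
      have h2 := star_of_mem Γ hki
      rw [← hAB] at h2
      rcases h2 with h2 | h2
      · exact Or.inl (Or.inr (mem_iUnion₂.2 ⟨_, ⟨hW, i, h2, hi⟩, hyW⟩))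
      · exact Or.inr (Or.inr (mem_iUnion₂.2 ⟨_, ⟨hW, i, h2, hi⟩, hyW⟩))
  -- the claim on the traces
  have hc1 : ∀ S S' : Set Γ.ι, S ∪ S' = star Γ k →
      (∀ W ∈ Γ.comps, ∀ i ∈ S, ∀ j ∈ S', Γ.Adj W i → ¬ Γ.Adj W j) →
      ∀ y ∈ range e, y ≠ Γ.pt k → y ∈ C S → ∀ j, y ∈ Γ.σ j → j ∈ S := by
    intro S S' hSS hn y hy hyk hyC j hj
    rcases hyC with h | h
    · obtain ⟨i, hi, hyi⟩ := mem_iUnion₂.1 h
      rw [← o4 y hy hyk i j hyi hj]
      exact hi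
    · obtain ⟨W, ⟨hW, i, hi, hWi⟩, hyW⟩ := mem_iUnion₂.1 h
      obtain ⟨i', hi', hyi'⟩ := clos_adj hM Γ hW hyW (mem_iUnion.2 ⟨j, hj⟩)
      have h1 := o4 y hy hyk i' j hyi' hj
      rw [h1] at hi'
      have h2 := o1 y hy j hj
      rw [← hSS] at h2
      rcases h2 with h2 | h2
      · exact h2
      · exact absurd hi' (hn W hW i hi j h2 hWi)
  have hc2 : ∀ S : Set Γ.ι, ∀ y, y ∉ Γ.set → y ∈ C S →
      ∃ i ∈ S, Γ.Adj (connectedComponentIn (Γ.set)ᶜ y) i := by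
    intro S y hyΓ hyC
    rcases hyC with h | h
    · obtain ⟨i, hi, hyi⟩ := mem_iUnion₂.1 h
      exact absurd (mem_iUnion.2 ⟨i, hyi⟩) hyΓ
    · obtain ⟨W, ⟨hW, i, hi, hWi⟩, hyW⟩ := mem_iUnion₂.1 h
      have h1 : y ∈ W := (isComp_of_mem Γ hW).closure_inter ⟨hyW, hyΓ⟩
      rw [← (isComp_of_mem Γ hW).eq_of_mem h1]
      exact ⟨i, hi, hWi⟩
  -- both sets meet the punctured disc
  have hmeet : ∀ S : Set Γ.ι, S ⊆ star Γ k → S.Nonempty →
      ((range e \ {Γ.pt k}) ∩ C S).Nonempty := by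
    rintro S hS ⟨i, hi⟩
    have hks := pt_mem_of_star Γ (hS hi)
    obtain ⟨l, hlk, hl⟩ := star_other (Γ := Γ) k (hS hi)
    have hli : Γ.pt l ∈ Γ.σ i := by
      apply pt_mem_of_star
      have : l ∈ ({Γ.s i, Γ.t i} : Set Γ.κ) := by rw [hl]; exact Or.inr rfl
      exact this
    obtain ⟨y, hy1, hy2, hy3⟩ := sig_pre Γ i (range e) {Γ.pt k}ᶜ hO isOpen_compl_singleton
      (fun z _ => by
        by_cases h : z = Γ.pt k
        · left
          rw [h]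
          exact hkO
        · right
          exact h) ⟨_, hks, hkO⟩ ⟨_, hli, fun h => hlk (Γ.pt_inj h)⟩
    exact ⟨y, ⟨hy2, hy3⟩, Or.inl (mem_iUnion₂.2 ⟨i, hi, hy1⟩)⟩
  obtain ⟨y, ⟨hy, hyk⟩, hyA, hyB⟩ := isPreconnected_closed_iff.1 hpre (C A) (C B) (hC A) (hC B) hcov
    (hmeet A (by rw [← hAB]; exact subset_union_left) hA)
    (hmeet B (by rw [← hAB]; exact subset_union_right) hB)
  by_cases hyΓ : y ∈ Γ.set
  · obtain ⟨j, hj⟩ := mem_iUnion.1 hyΓ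
    have h1 := hc1 A B hAB hcon y hy hyk hyA j hj
    have h2 := hc1 B A (by rw [union_comm]; exact hAB)
      (fun W hW i hi j hj hWi hWj => hcon W hW j hj i hi hWj hWi) y hy hyk hyB j hj
    exact Set.disjoint_left.1 hdis h1 h2
  · obtain ⟨i, hi, h1⟩ := hc2 A y hyΓ hyA
    obtain ⟨j, hj, h2⟩ := hc2 B y hyΓ hyB
    exact hcon _ (comps_of_notMem Γ hyΓ) i hi j hj h1 h2

end Pool.Agent.H10.PQ
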